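import Mathlib

set_option autoImplicit false

namespace Pool.Agent.Results.MP_5135a5_co.Characterisation

open Finset

/-- `S` is a dominating set of `G`. -/
def Dominating {V : Type} (G : SimpleGraph V) (S : Finset V) : Prop :=
  ∀ v, v ∉ S → ∃ u ∈ S, G.Adj v u

/-- `S` is a total dominating set of `G`. -/
def TotalDominating {V : Type} (G : SimpleGraph V) (S : Finset V) : Prop :=
  ∀ v, ∃ u ∈ S, G.Adj v u

/-- The upper domination number `Γ(G)`: the largest size of a minimal dominating set. -/
noncomputable def upperDom {V : Type} (G : SimpleGraph V) : ℕ :=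
  sSup {n | ∃ S : Finset V, Minimal (Dominating G) S ∧ S.card = n}

/-- The upper total domination number `Γ_t(G)`: the largest size of a minimal total
dominating set. -/
noncomputable def upperTotalDom {V : Type} (G : SimpleGraph V) : ℕ :=
  sSup {n | ∃ S : Finset V, Minimal (TotalDominating G) S ∧ S.card = n}

/-- `G` has an induced matching with `k` edges `u i — v i`. -/
def HasInducedMatching {V : Type} (G : SimpleGraph V) (k : ℕ) : Prop :=
  ∃ u v : Fin k → V, (∀ i j, G.Adj (u i) (v j) ↔ i = j) ∧
    (∀ i j, ¬ G.Adj (u i) (u j)) ∧ (∀ i j, ¬ G.Adj (v i) (v j))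

/-- `w` lies in the closed neighbourhood `N[v]`. -/
def Nb {V : Type} (G : SimpleGraph V) (v w : V) : Prop := w = v ∨ G.Adj v w

/-- A private configuration of order `m`: vertices `d₁,…,d_m` and `p₁,…,p_m` with
`p_i ∈ N[d_j]` exactly when `i = j`, such that the vertices `d_j` together with all vertices
outside `⋃ N[p_i]` dominate `G`. -/
def PrivateConfiguration {V : Type} (G : SimpleGraph V) (m : ℕ) : Prop :=
  ∃ d p : Fin m → V, (∀ i j, Nb G (d j) (p i) ↔ i = j) ∧
    ∀ w, (∃ j, Nb G (d j) w) ∨ ∃ x, Nb G x w ∧ ∀ i, ¬ Nb G x (p i)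

/-- The graph obtained from `H` by replacing every vertex by two adjacent twins. -/
def twin {W : Type} (H : SimpleGraph W) : SimpleGraph (W × Bool) where
  Adj a b := H.Adj a.1 b.1 ∨ (a.1 = b.1 ∧ a.2 ≠ b.2)
  symm := ⟨by
    rintro a b (h | ⟨h1, h2⟩)
    · exact Or.inl h.symm
    · exact Or.inr ⟨h1.symm, h2.symm⟩⟩
  loopless := ⟨by
    rintro a (h | ⟨_, h2⟩)
    · exact H.loopless.irrefl _ h
    · exact h2 rfl⟩

/-- Every induced subgraph `G[U]` has an independent set meeting all maximal cliques of `G[U]`
(Berge's strongly perfect graphs). -/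
def StronglyPerfect {V : Type} (G : SimpleGraph V) : Prop :=
  ∀ U : Set V, ∃ I ⊆ U, G.IsIndepSet I ∧
    ∀ K ⊆ U, G.IsClique K → (∀ x ∈ U, (∀ y ∈ K, y ≠ x → G.Adj x y) → x ∈ K) → (I ∩ K).Nonempty

section
variable {V : Type} {G : SimpleGraph V}

theorem nb_self (v : V) : Nb G v v := Or.inl rfl

theorem nb_symm {v w : V} (h : Nb G v w) : Nb G w v := by
  rcases h with rfl | h
  · exact nb_self _
  · exact Or.inr h.symm

theorem dom_iff (S : Finset V) : Dominating G S ↔ ∀ v, ∃ u ∈ S, Nb G u v := by
  constructor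
  · intro h v
    by_cases hv : v ∈ S
    · exact ⟨v, hv, nb_self v⟩
    · obtain ⟨u, hu, huv⟩ := h v hv
      exact ⟨u, hu, Or.inr huv.symm⟩
  · intro h v hv
    obtain ⟨u, hu, huv⟩ := h v
    rcases huv with rfl | huv
    · exact absurd hu hv
    · exact ⟨u, hu, huv.symm⟩

theorem minimal_dom_iff [DecidableEq V] (S : Finset V) : Minimal (Dominating G) S ↔
    Dominating G S ∧ ∀ d ∈ S, ∃ p, Nb G d p ∧ ∀ d' ∈ S, Nb G d' p → d' = d := by
  constructor
  · intro h
    refine ⟨h.1, fun d hd => ?_⟩
    have h1 : ¬ Dominating G (S.erase d) := by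
      intro h1
      have := h.2 h1 (Finset.erase_subset _ _) hd
      simp at this
    rw [dom_iff] at h1
    push Not at h1
    obtain ⟨p, hp⟩ := h1
    obtain ⟨u, hu, hup⟩ := (dom_iff S).1 h.1 p
    have hud : u = d := by
      by_contra hne
      exact hp u (Finset.mem_erase.2 ⟨hne, hu⟩) hup
    refine ⟨p, hud ▸ hup, fun d' hd' hd'p => ?_⟩
    by_contra hne
    exact hp d' (Finset.mem_erase.2 ⟨hne, hd'⟩) hd'p
  · rintro ⟨h1, h2⟩
    refine ⟨h1, fun T hT hTS d hd => ?_⟩
    obtain ⟨p, hp, hp'⟩ := h2 d hd
    obtain ⟨u, hu, hup⟩ := (dom_iff T).1 hT p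
    rw [← hp' u (hTS hu) hup]
    exact hu

theorem minimal_tdom_iff [DecidableEq V] (S : Finset V) : Minimal (TotalDominating G) S ↔
    TotalDominating G S ∧ ∀ d ∈ S, ∃ p, G.Adj d p ∧ ∀ d' ∈ S, G.Adj d' p → d' = d := by
  constructor
  · intro h
    refine ⟨h.1, fun d hd => ?_⟩
    have h1 : ¬ TotalDominating G (S.erase d) := by
      intro h1
      have := h.2 h1 (Finset.erase_subset _ _) hd
      simp at this
    unfold TotalDominating at h1
    push Not at h1
    obtain ⟨p, hp⟩ := h1
    obtain ⟨u, hu, hup⟩ := h.1 p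
    have hud : u = d := by
      by_contra hne
      exact hp u (Finset.mem_erase.2 ⟨hne, hu⟩) hup
    refine ⟨p, hud ▸ hup.symm, fun d' hd' hd'p => ?_⟩
    by_contra hne
    exact hp d' (Finset.mem_erase.2 ⟨hne, hd'⟩) hd'p.symm
  · rintro ⟨h1, h2⟩
    refine ⟨h1, fun T hT hTS d hd => ?_⟩
    obtain ⟨p, hp, hp'⟩ := h2 d hd
    obtain ⟨u, hu, hup⟩ := hT p
    rw [← hp' u (hTS hu) hup.symm]
    exact hu

variable [Fintype V] [DecidableEq V]

theorem exists_min_dom_sub {A : Finset V} (h : Dominating G A) :
    ∃ D ⊆ A, Minimal (Dominating G) D := by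
  obtain ⟨D, hD, hD'⟩ := exists_minimal_le_of_wellFoundedLT (Dominating G) A h
  exact ⟨D, hD, hD'⟩

theorem card_le_upperDom {S : Finset V} (h : Minimal (Dominating G) S) :
    S.card ≤ upperDom G := by
  apply le_csSup
  · refine ⟨Fintype.card V, ?_⟩
    rintro n ⟨S, -, rfl⟩
    exact Finset.card_le_univ S
  · exact ⟨S, h, rfl⟩

theorem exists_upperDom (G : SimpleGraph V) :
    ∃ S : Finset V, Minimal (Dominating G) S ∧ S.card = upperDom G := by
  have h1 : upperDom G ∈ {n | ∃ S : Finset V, Minimal (Dominating G) S ∧ S.card = n} := by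
    apply Nat.sSup_mem
    · obtain ⟨D, -, hD⟩ := exists_min_dom_sub (G := G) (A := Finset.univ)
        (fun v hv => absurd (Finset.mem_univ v) hv)
      exact ⟨_, D, hD, rfl⟩
    · refine ⟨Fintype.card V, ?_⟩
      rintro n ⟨S, -, rfl⟩
      exact Finset.card_le_univ S
  exact h1

theorem card_le_upperTotalDom {S : Finset V} (h : Minimal (TotalDominating G) S) :
    S.card ≤ upperTotalDom G := by
  apply le_csSup
  · refine ⟨Fintype.card V, ?_⟩
    rintro n ⟨S, -, rfl⟩
    exact Finset.card_le_univ S
  · exact ⟨S, h, rfl⟩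

theorem exists_upperTotalDom (hG : ∀ v, ∃ w, G.Adj v w) :
    ∃ S : Finset V, Minimal (TotalDominating G) S ∧ S.card = upperTotalDom G := by
  have h1 : upperTotalDom G ∈
      {n | ∃ S : Finset V, Minimal (TotalDominating G) S ∧ S.card = n} := by
    apply Nat.sSup_mem
    · obtain ⟨D, -, hD⟩ := exists_minimal_le_of_wellFoundedLT (TotalDominating G)
        (Finset.univ : Finset V) (fun v => by
          obtain ⟨w, hw⟩ := hG v
          exact ⟨w, Finset.mem_univ w, hw⟩)
      exact ⟨_, D, hD, rfl⟩
    · refine ⟨Fintype.card V, ?_⟩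
      rintro n ⟨S, -, rfl⟩
      exact Finset.card_le_univ S
  exact h1

/-- independent sets are no larger than `Γ` -/
theorem indep_le_upperDom {I : Finset V} (hI : ∀ a ∈ I, ∀ b ∈ I, ¬ G.Adj a b) :
    I.card ≤ upperDom G := by
  obtain ⟨J, hIJ, hJ⟩ := exists_maximal_ge_of_wellFoundedGT
    (fun J : Finset V => ∀ a ∈ J, ∀ b ∈ J, ¬ G.Adj a b) I hI
  have h1 : Minimal (Dominating G) J := by
    rw [minimal_dom_iff]
    constructor
    · intro v hv
      by_contra hcon
      push Not at hcon
      have h2 : ∀ a ∈ insert v J, ∀ b ∈ insert v J, ¬ G.Adj a b := by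
        intro a ha b hb hab
        rw [Finset.mem_insert] at ha hb
        rcases ha with rfl | ha <;> rcases hb with rfl | hb
        · exact G.loopless.irrefl _ hab
        · exact hcon b hb hab
        · exact hcon a ha hab.symm
        · exact hJ.1 a ha b hb hab
      exact hv (hJ.2 h2 (Finset.subset_insert v J) (Finset.mem_insert_self v J))
    · intro d hd
      refine ⟨d, nb_self d, fun d' hd' h => ?_⟩
      rcases h with h | h
      · exact h.symm
      · exact absurd h (hJ.1 d' hd' d hd)
  exact (Finset.card_le_card hIJ).trans (card_le_upperDom h1)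

/-- Key structural lemma. -/
theorem key {S : Finset V} (hS : Minimal (TotalDominating G) S)
    {D : Finset V} (hD : Minimal (Dominating G) D) (hDS : D ⊆ S) :
    ∃ f : V → V, (∀ v ∈ S \ D, f v ∈ D ∧ ∀ s ∈ S, G.Adj s (f v) ↔ s = v) ∧
      Set.InjOn f (S \ D : Finset V) ∧ S.card ≤ 2 * D.card := by
  have h1 : ∀ v ∈ S \ D, ∃ x, x ∈ D ∧ ∀ s ∈ S, G.Adj s x ↔ s = v := by
    intro v hv
    rw [Finset.mem_sdiff] at hv
    obtain ⟨x, hvx, hx⟩ := ((minimal_tdom_iff S).1 hS).2 v hv.1
    refine ⟨x, ?_, fun s hs => ⟨fun h => hx s hs h, fun h => h ▸ hvx⟩⟩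
    by_contra hxD
    obtain ⟨u, hu, hux⟩ := hD.1 x hxD
    exact hv.2 (hx u (hDS hu) hux.symm ▸ hu)
  choose! f hf using h1
  have hinj : Set.InjOn f (S \ D : Finset V) := by
    intro a ha b hb hab
    have ha' := (hf a ha).2 a (Finset.mem_sdiff.1 ha).1
    rw [hab, (hf b hb).2 a (Finset.mem_sdiff.1 ha).1] at ha'
    exact ha'.2 rfl
  refine ⟨f, hf, hinj, ?_⟩
  have h2 : (S \ D).card ≤ D.card :=
    Finset.card_le_card_of_injOn f (fun v hv => (hf v hv).1) hinj
  have h3 : (S \ D).card + D.card = S.card := Finset.card_sdiff_add_card_eq_card hDS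
  omega

theorem upperTotalDom_le (hG : ∀ v, ∃ w, G.Adj v w) : upperTotalDom G ≤ 2 * upperDom G := by
  obtain ⟨S, hS, hSc⟩ := exists_upperTotalDom hG
  have hSd : Dominating G S := fun v _ => hS.1 v
  obtain ⟨D, hDS, hD⟩ := exists_min_dom_sub hSd
  obtain ⟨f, hf, hinj, hcard⟩ := key hS hD hDS
  have := card_le_upperDom hD
  omega

/-- The structure of a minimal total dominating set of size `2 Γ(G)`. -/
theorem structure_of_eq {S : Finset V} (hS : Minimal (TotalDominating G) S)
    (hc : S.card = 2 * upperDom G) :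
    (∀ x ∈ S, ∃! y, y ∈ S ∧ G.Adj x y) ∧
    (∀ w, w ∉ S → ∃ x ∈ S, ∃ y ∈ S, G.Adj x y ∧ G.Adj w x ∧ G.Adj w y) ∧
    HasInducedMatching G (upperDom G) := by
  have hSd : Dominating G S := fun v _ => hS.1 v
  obtain ⟨D, hDS, hD⟩ := exists_min_dom_sub hSd
  obtain ⟨f, hf, hinj, hcard⟩ := key hS hD hDS
  have hDc : D.card = upperDom G := by
    have := card_le_upperDom hD
    omega
  have hsd : (S \ D).card = D.card := by
    have h3 : (S \ D).card + D.card = S.card := Finset.card_sdiff_add_card_eq_card hDS
    omega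
  -- f is onto D
  have hsurj : ∀ x ∈ D, ∃ v ∈ S \ D, f v = x := by
    have himg : (S \ D).image f = D := by
      apply Finset.eq_of_subset_of_card_le
      · intro y hy
        obtain ⟨v, hv, rfl⟩ := Finset.mem_image.1 hy
        exact (hf v hv).1
      · rw [Finset.card_image_of_injOn hinj, hsd]
    intro x hx
    rw [← himg, Finset.mem_image] at hx
    exact hx
  choose! g hg using hsurj
  -- g x is the unique S-neighbour of x
  have hgS : ∀ x ∈ D, g x ∈ S ∧ g x ∉ D := fun x hx => Finset.mem_sdiff.1 (hg x hx).1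
  have hgadj : ∀ x ∈ D, ∀ s ∈ S, G.Adj s x ↔ s = g x := by
    intro x hx s hs
    have := (hf (g x) (hg x hx).1).2 s hs
    rwa [(hg x hx).2] at this
  have hDindep : ∀ a ∈ D, ∀ b ∈ D, ¬ G.Adj a b := by
    intro a ha b hb h
    exact (hgS b hb).2 ((hgadj b hb a (hDS ha)).1 h ▸ ha)
  have hginj : ∀ a ∈ D, ∀ b ∈ D, g a = g b → a = b := by
    intro a ha b hb h
    rw [← (hg a ha).2, ← (hg b hb).2, h]
  -- key: g x has x as its only S-neighbour
  have hgadj' : ∀ x ∈ D, ∀ s ∈ S, G.Adj s (g x) ↔ s = x := by
    intro x hx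
    obtain ⟨y, hxy, hy⟩ := ((minimal_tdom_iff S).1 hS).2 x (hDS hx)
    have hxg : G.Adj x (g x) := ((hgadj x hx (g x) (hgS x hx).1).2 rfl).symm
    by_cases hyS : y ∈ S
    · have hyg : y = g x := (hgadj x hx y hyS).1 hxy.symm
      subst hyg
      exact fun s hs => ⟨fun h => hy s hs h, fun h => h ▸ hxg⟩
    · -- build a large independent set
      exfalso
      have hI : ∀ a ∈ insert y (insert (g x) (D.erase x)),
          ∀ b ∈ insert y (insert (g x) (D.erase x)), ¬ G.Adj a b := by
        have e1 : ¬ G.Adj y (g x) := by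
          intro h
          have h5 : g x = x := hy (g x) (hgS x hx).1 h.symm
          have h6 := (hgS x hx).2
          rw [h5] at h6
          exact h6 hx
        have e2 : ∀ b ∈ D.erase x, ¬ G.Adj y b := by
          intro b hb h
          rw [Finset.mem_erase] at hb
          exact hb.1 (hy b (hDS hb.2) h.symm)
        have e3 : ∀ b ∈ D.erase x, ¬ G.Adj (g x) b := by
          intro b hb h
          rw [Finset.mem_erase] at hb
          have := (hgadj b hb.2 (g x) (hgS x hx).1).1 h
          exact hb.1 (hginj x hx b hb.2 this).symm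
        have e4 : ∀ a ∈ D.erase x, ∀ b ∈ D.erase x, ¬ G.Adj a b := fun a ha b hb =>
          hDindep a (Finset.mem_of_mem_erase ha) b (Finset.mem_of_mem_erase hb)
        intro a ha b hb hab
        rw [Finset.mem_insert, Finset.mem_insert] at ha hb
        rcases ha with rfl | rfl | ha <;> rcases hb with rfl | rfl | hb
        · exact G.loopless.irrefl _ hab
        · exact e1 hab
        · exact e2 b hb hab
        · exact e1 hab.symm
        · exact G.loopless.irrefl _ hab
        · exact e3 b hb hab
        · exact e2 a ha hab.symm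
        · exact e3 a ha hab.symm
        · exact e4 a ha b hb hab
      have h1 := indep_le_upperDom hI
      have h2 : g x ∉ D.erase x := fun h => (hgS x hx).2 (Finset.mem_of_mem_erase h)
      have h3 : y ∉ insert (g x) (D.erase x) := by
        intro h
        rw [Finset.mem_insert] at h
        rcases h with h | h
        · exact hyS (h ▸ (hgS x hx).1)
        · exact hyS (hDS (Finset.mem_of_mem_erase h))
      rw [Finset.card_insert_of_notMem h3, Finset.card_insert_of_notMem h2,
        Finset.card_erase_of_mem hx, hDc] at h1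
      have h4 : 0 < D.card := Finset.card_pos.2 ⟨x, hx⟩
      omega
  -- every element of S is in D or is g x
  have hcov : ∀ s ∈ S, s ∈ D ∨ ∃ x ∈ D, s = g x := by
    intro s hs
    by_cases h : s ∈ D
    · exact Or.inl h
    · right
      have hs' : s ∈ S \ D := Finset.mem_sdiff.2 ⟨hs, h⟩
      refine ⟨f s, (hf s hs').1, ?_⟩
      apply hinj hs' (hg _ (hf s hs').1).1
      exact ((hg _ (hf s hs').1).2).symm
  refine ⟨?_, ?_, ?_⟩
  · intro x hx
    rcases hcov x hx with h | ⟨a, ha, rfl⟩
    · refine ⟨g x, ⟨(hgS x h).1, ((hgadj x h (g x) (hgS x h).1).2 rfl).symm⟩, ?_⟩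
      rintro y ⟨hy, hxy⟩
      exact (hgadj x h y hy).1 hxy.symm
    · refine ⟨a, ⟨hDS ha, (hgadj a ha (g a) hx).2 rfl⟩, ?_⟩
      rintro y ⟨hy, hxy⟩
      exact (hgadj' a ha y hy).1 hxy.symm
  · intro w hw
    by_contra hcon
    push Not at hcon
    -- choose from each pair an element not adjacent to w
    classical
    let c : V → V := fun x => if G.Adj w x then g x else x
    have hcw : ∀ x ∈ D, ¬ G.Adj w (c x) := by
      intro x hx
      simp only [c]
      split_ifs with h
      · exact hcon x (hDS hx) (g x) (hgS x hx).1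
          ((hgadj x hx (g x) (hgS x hx).1).2 rfl).symm h
      · exact h
    have hcS : ∀ x ∈ D, c x ∈ S := by
      intro x hx
      simp only [c]
      split_ifs
      · exact (hgS x hx).1
      · exact hDS hx
    have hcc : ∀ a ∈ D, ∀ b ∈ D, a ≠ b → c a ≠ c b ∧ ¬ G.Adj (c a) (c b) := by
      intro a ha b hb hab
      simp only [c]
      split_ifs with h1 h2 h2
      · refine ⟨fun h => hab (hginj a ha b hb h), fun h => ?_⟩
        have := (hgadj' b hb (g a) (hgS a ha).1).1 h
        exact (hgS a ha).2 (this ▸ hb)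
      · refine ⟨fun h => (hgS a ha).2 (h ▸ hb), fun h => ?_⟩
        have := (hgadj b hb (g a) (hgS a ha).1).1 h
        exact hab (hginj a ha b hb this)
      · refine ⟨fun h => (hgS b hb).2 (h ▸ ha), fun h => ?_⟩
        exact hab ((hgadj' b hb a (hDS ha)).1 h)
      · exact ⟨hab, hDindep a ha b hb⟩
    have hcinj : Set.InjOn c (D : Set V) := by
      intro a ha b hb h
      by_contra hab
      exact (hcc a ha b hb hab).1 h
    have hI : ∀ a ∈ insert w (D.image c), ∀ b ∈ insert w (D.image c), ¬ G.Adj a b := by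
      intro a ha b hb hab
      rw [Finset.mem_insert, Finset.mem_image] at ha hb
      rcases ha with rfl | ⟨a, ha, rfl⟩ <;> rcases hb with rfl | ⟨b, hb, rfl⟩
      · exact G.loopless.irrefl _ hab
      · exact hcw b hb hab
      · exact hcw a ha hab.symm
      · by_cases h : a = b
        · subst h; exact G.loopless.irrefl _ hab
        · exact (hcc a ha b hb h).2 hab
    have h1 := indep_le_upperDom hI
    have h2 : w ∉ D.image c := by
      intro h
      obtain ⟨a, ha, haw⟩ := Finset.mem_image.1 h
      exact hw (haw ▸ hcS a ha)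
    rw [Finset.card_insert_of_notMem h2, Finset.card_image_of_injOn hcinj, hDc] at h1
    omega
  · -- induced matching
    let e := (D.equivFin.trans (finCongr hDc)).symm
    refine ⟨fun i => (e i : V), fun i => g (e i), ?_, ?_, ?_⟩
    · intro i j
      rw [hgadj' (e j) (e j).2 (e i) (hDS (e i).2)]
      constructor
      · intro h; exact e.injective (Subtype.ext h)
      · rintro rfl; rfl
    · intro i j
      exact hDindep _ (e i).2 _ (e j).2
    · intro i j h
      have := (hgadj' (e j) (e j).2 (g (e i)) (hgS _ (e i).2).1).1 h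
      exact (hgS _ (e i).2).2 (this ▸ (e j).2)


/-- An induced matching with `k` edges gives an independent set of size `k` (so `k ≤ Γ`). -/
theorem indep_of_matching {k : ℕ} {u v : Fin k → V} (huv : ∀ i j, G.Adj (u i) (v j) ↔ i = j) :
    Function.Injective u ∧ Function.Injective v := by
  constructor
  · intro i j h
    have := (huv j j).2 rfl
    rw [← h] at this
    exact (huv i j).1 this
  · intro i j h
    have := (huv i i).2 rfl
    rw [h] at this
    exact (huv i j).1 this

theorem matching_le_indepNum {k : ℕ} (h : HasInducedMatching G k) : k ≤ G.indepNum := by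
  obtain ⟨u, v, huv, huu, hvv⟩ := h
  have hinj := (indep_of_matching huv).1
  have h1 : G.IsIndepSet ((Finset.univ.image u : Finset V) : Set V) := by
    intro a ha b hb _
    rw [Finset.mem_coe, Finset.mem_image] at ha hb
    obtain ⟨i, -, rfl⟩ := ha
    obtain ⟨j, -, rfl⟩ := hb
    exact huu i j
  have h2 := h1.card_le_indepNum
  rwa [Finset.card_image_of_injective _ hinj, Finset.card_univ, Fintype.card_fin] at h2

theorem indepNum_le_upperDom (G : SimpleGraph V) : G.indepNum ≤ upperDom G := by
  obtain ⟨s, hs⟩ := G.exists_isNIndepSet_indepNum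
  rw [← hs.2]
  apply indep_le_upperDom
  intro a ha b hb hab
  exact hs.1 ha hb hab.ne hab

/-- An induced matching with `Γ(G)` edges gives `Γ_t(G) ≥ 2 Γ(G)`. -/
theorem le_of_matching (h : HasInducedMatching G (upperDom G)) :
    2 * upperDom G ≤ upperTotalDom G := by
  obtain ⟨u, v, huv, huu, hvv⟩ := h
  obtain ⟨hu, hv⟩ := indep_of_matching huv
  set A : Finset V := Finset.univ.image u with hA
  set B : Finset V := Finset.univ.image v with hB
  have hAB : Disjoint A B := by
    rw [Finset.disjoint_left]
    intro x hxA hxB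
    obtain ⟨i, -, rfl⟩ := Finset.mem_image.1 hxA
    obtain ⟨j, -, hj⟩ := Finset.mem_image.1 hxB
    have h1 := (huv i i).2 rfl
    rw [← hj] at h1
    exact hvv j i h1
  have hAc : A.card = upperDom G := by
    rw [hA, Finset.card_image_of_injective _ hu, Finset.card_univ, Fintype.card_fin]
  have hBc : B.card = upperDom G := by
    rw [hB, Finset.card_image_of_injective _ hv, Finset.card_univ, Fintype.card_fin]
  have hmin : Minimal (TotalDominating G) (A ∪ B) := by
    rw [minimal_tdom_iff]
    constructor
    · intro w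
      by_contra hcon
      push Not at hcon
      have hwA : w ∉ A := by
        intro hw
        obtain ⟨i, -, rfl⟩ := Finset.mem_image.1 hw
        exact hcon (v i) (Finset.mem_union_right _ (Finset.mem_image_of_mem v (Finset.mem_univ i)))
          ((huv i i).2 rfl)
      have hI : ∀ a ∈ insert w A, ∀ b ∈ insert w A, ¬ G.Adj a b := by
        intro a ha b hb hab
        rw [Finset.mem_insert] at ha hb
        rcases ha with rfl | ha <;> rcases hb with rfl | hb
        · exact G.loopless.irrefl _ hab
        · exact hcon b (Finset.mem_union_left _ hb) hab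
        · exact hcon a (Finset.mem_union_left _ ha) hab.symm
        · obtain ⟨i, -, rfl⟩ := Finset.mem_image.1 ha
          obtain ⟨j, -, rfl⟩ := Finset.mem_image.1 hb
          exact huu i j hab
      have h1 := indep_le_upperDom hI
      rw [Finset.card_insert_of_notMem hwA] at h1
      omega
    · intro d hd
      rw [Finset.mem_union] at hd
      rcases hd with hd | hd
      · obtain ⟨i, -, rfl⟩ := Finset.mem_image.1 hd
        refine ⟨v i, (huv i i).2 rfl, fun d' hd' h => ?_⟩
        rw [Finset.mem_union] at hd'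
        rcases hd' with hd' | hd'
        · obtain ⟨j, -, rfl⟩ := Finset.mem_image.1 hd'
          rw [(huv j i).1 h]
        · obtain ⟨j, -, rfl⟩ := Finset.mem_image.1 hd'
          exact absurd h (hvv j i)
      · obtain ⟨i, -, rfl⟩ := Finset.mem_image.1 hd
        refine ⟨u i, ((huv i i).2 rfl).symm, fun d' hd' h => ?_⟩
        rw [Finset.mem_union] at hd'
        rcases hd' with hd' | hd'
        · obtain ⟨j, -, rfl⟩ := Finset.mem_image.1 hd'
          exact absurd h (huu j i)
        · obtain ⟨j, -, rfl⟩ := Finset.mem_image.1 hd'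
          rw [(huv i j).1 h.symm]
  have h1 := card_le_upperTotalDom hmin
  rw [Finset.card_union_of_disjoint hAB, hAc, hBc] at h1
  omega

theorem main_iff (hG : ∀ v, ∃ w, G.Adj v w) :
    upperTotalDom G = 2 * upperDom G ↔ HasInducedMatching G (upperDom G) := by
  constructor
  · intro h
    obtain ⟨S, hS, hSc⟩ := exists_upperTotalDom hG
    exact (structure_of_eq hS (hSc.trans h)).2.2
  · intro h
    exact le_antisymm (upperTotalDom_le hG) (le_of_matching h)

/-- `Γ(G) ≥ m` is the same as having a private configuration of order `m`. -/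
theorem config_iff (G : SimpleGraph V) (m : ℕ) : PrivateConfiguration G m ↔ m ≤ upperDom G := by
  classical
  constructor
  · rintro ⟨d, p, hdp, hw⟩
    set A : Finset V := Finset.univ.filter
      (fun x => (∃ j, x = d j) ∨ ∀ i, ¬ Nb G x (p i)) with hA
    have hAdom : Dominating G A := by
      rw [dom_iff]
      intro w
      rcases hw w with ⟨j, hj⟩ | ⟨x, hx, hx'⟩
      · exact ⟨d j, by simp [hA], hj⟩
      · exact ⟨x, by simp only [hA, Finset.mem_filter, Finset.mem_univ, true_and]; exact Or.inr hx',
          hx⟩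
    obtain ⟨D, hDA, hD⟩ := exists_min_dom_sub hAdom
    have hd : ∀ i, d i ∈ D := by
      intro i
      obtain ⟨u, hu, hup⟩ := (dom_iff D).1 hD.1 (p i)
      have h1 := hDA hu
      simp only [hA, Finset.mem_filter, Finset.mem_univ, true_and] at h1
      rcases h1 with ⟨j, rfl⟩ | h1
      · rw [(hdp i j).1 hup]; exact hu
      · exact absurd hup (h1 i)
    have hinj : Function.Injective d := by
      intro i j h
      have := (hdp i i).2 rfl
      rw [h] at this
      exact (hdp i j).1 this
    have h2 : (Finset.univ.image d).card ≤ D.card := by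
      apply Finset.card_le_card
      intro x hx
      obtain ⟨i, -, rfl⟩ := Finset.mem_image.1 hx
      exact hd i
    rw [Finset.card_image_of_injective _ hinj, Finset.card_univ, Fintype.card_fin] at h2
    exact h2.trans (card_le_upperDom hD)
  · intro hm
    obtain ⟨D, hD, hDc⟩ := exists_upperDom G
    obtain ⟨T, hTD, hTc⟩ := Finset.exists_subset_card_eq (hDc ▸ hm : m ≤ D.card)
    let e := (T.equivFin.trans (finCongr hTc)).symm
    have hpriv := ((minimal_dom_iff D).1 hD).2
    choose! p hp hp' using hpriv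
    refine ⟨fun i => e i, fun i => p (e i), ?_, ?_⟩
    · intro i j
      constructor
      · intro h
        have := hp' (e i) (hTD (e i).2) (e j) (hTD (e j).2) h
        exact (e.injective (Subtype.ext this)).symm
      · rintro rfl
        exact hp _ (hTD (e i).2)
    · intro w
      obtain ⟨x, hx, hxw⟩ := (dom_iff D).1 hD.1 w
      by_cases hxT : x ∈ T
      · left
        refine ⟨e.symm ⟨x, hxT⟩, ?_⟩
        simpa using hxw
      · right
        refine ⟨x, hxw, fun i h => hxT ?_⟩
        rw [hp' (e i) (hTD (e i).2) x hx h]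
        exact (e i).2

/-- the `Γ`-free characterisation -/
theorem main_iff' (hG : ∀ v, ∃ w, G.Adj v w) :
    upperTotalDom G = 2 * upperDom G ↔
      ∃ k, HasInducedMatching G k ∧ ¬ PrivateConfiguration G (k + 1) := by
  rw [main_iff hG]
  constructor
  · intro h
    refine ⟨upperDom G, h, ?_⟩
    rw [config_iff]
    omega
  · rintro ⟨k, hk, hc⟩
    rw [config_iff] at hc
    have h1 := (matching_le_indepNum hk).trans (indepNum_le_upperDom G)
    have h2 : k = upperDom G := by omega
    exact h2 ▸ hk

theorem main_iff'' (hG : ∀ v, ∃ w, G.Adj v w) :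
    upperTotalDom G = 2 * upperDom G ↔
      HasInducedMatching G G.indepNum ∧ G.indepNum = upperDom G := by
  rw [main_iff hG]
  constructor
  · intro h
    have h1 := matching_le_indepNum h
    have h2 := indepNum_le_upperDom G
    have h3 : G.indepNum = upperDom G := by omega
    exact ⟨h3 ▸ h, h3⟩
  · rintro ⟨h1, h2⟩
    exact h2 ▸ h1

/-- triangle-free graphs -/
theorem triangle_free (hG : ∀ v, ∃ w, G.Adj v w) (htf : G.CliqueFree 3) :
    upperTotalDom G = 2 * upperDom G ↔ ∀ v, ∃! w, G.Adj v w := by
  constructor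
  · intro h
    obtain ⟨S, hS, hSc⟩ := exists_upperTotalDom hG
    obtain ⟨h1, h2, -⟩ := structure_of_eq hS (hSc.trans h)
    have hall : ∀ w, w ∈ S := by
      intro w
      by_contra hw
      obtain ⟨x, -, y, -, hxy, hwx, hwy⟩ := h2 w hw
      exact htf {w, x, y} (SimpleGraph.is3Clique_triple_iff.2 ⟨hwx, hwy, hxy⟩)
    intro v
    obtain ⟨y, ⟨-, hy⟩, hy'⟩ := h1 v (hall v)
    exact ⟨y, hy, fun z hz => hy' z ⟨hall z, hz⟩⟩
  · intro h
    choose m hm hm' using h
    have hmm : ∀ v, m (m v) = v := fun v => (hm' (m v) v (hm v).symm).symm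
    rw [main_iff hG]
    obtain ⟨D, hD, hDc⟩ := exists_upperDom G
    have hind : ∀ a ∈ D, ∀ b ∈ D, ¬ G.Adj a b := by
      intro a ha b hb hab
      obtain ⟨p, hp, hp'⟩ := ((minimal_dom_iff D).1 hD).2 a ha
      have hb' : b = m a := hm' a b hab
      have h3 : Nb G b p := by
        rcases hp with rfl | hp
        · exact Or.inr hab.symm
        · left
          rw [hm' a p hp, hb']
      have h4 := hp' b hb h3
      exact hab.ne h4.symm
    let e := (D.equivFin.trans (finCongr hDc)).symm
    refine ⟨fun i => (e i : V), fun i => m (e i), ?_, ?_, ?_⟩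
    · intro i j
      constructor
      · intro h
        have h3 : m (e j : V) = m (e i : V) := hm' _ _ h
        have h4 : (e j : V) = e i := by rw [← hmm (e j : V), h3, hmm]
        exact (e.injective (Subtype.ext h4)).symm
      · rintro rfl
        exact hm _
    · intro i j
      exact hind _ (e i).2 _ (e j).2
    · intro i j h
      have h3 : m (e j : V) = m (m (e i : V)) := hm' _ _ h
      rw [hmm] at h3
      exact hind _ (e j).2 _ (e i).2 (h3 ▸ hm (e j : V))

/-- strongly perfect graphs have `α = Γ` -/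
theorem strongly_perfect_alpha (hsp : StronglyPerfect G) : G.indepNum = upperDom G := by
  classical
  apply le_antisymm (indepNum_le_upperDom G)
  obtain ⟨D, hD, hDc⟩ := exists_upperDom G
  -- private neighbours: choose `p d = d` when `d` is isolated in `D`
  have hpriv : ∀ d ∈ D, ∃ p, Nb G d p ∧ (∀ d' ∈ D, Nb G d' p → d' = d) ∧
      (p = d ∨ ∃ d' ∈ D, G.Adj d d') := by
    intro d hd
    by_cases h : ∃ d' ∈ D, G.Adj d d'
    · obtain ⟨p, hp, hp'⟩ := ((minimal_dom_iff D).1 hD).2 d hd
      exact ⟨p, hp, hp', Or.inr h⟩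
    · refine ⟨d, nb_self d, fun d' hd' hn => ?_, Or.inl rfl⟩
      rcases hn with hn | hn
      · exact hn.symm
      · exact absurd ⟨d', hd', hn.symm⟩ h
  choose! p hp hp' hp'' using hpriv
  set U : Set V := {x | x ∈ D ∨ ∃ d ∈ D, x = p d} with hU
  obtain ⟨I, hIU, hI, hIK⟩ := hsp U
  -- each pair {d, p d} is a maximal clique of G[U]
  have hmeet : ∀ d ∈ D, d ∈ I ∨ p d ∈ I := by
    intro d hd
    have h1 : (I ∩ ({d, p d} : Set V)).Nonempty := by
      apply hIK
      · intro x hx
        rcases hx with rfl | hx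
        · exact Or.inl hd
        · rw [Set.mem_singleton_iff] at hx
          exact Or.inr ⟨d, hd, hx⟩
      · intro a ha b hb hab
        simp only [Set.mem_insert_iff, Set.mem_singleton_iff] at ha hb
        rcases ha with rfl | rfl <;> rcases hb with rfl | rfl
        · exact absurd rfl hab
        · rcases hp _ hd with h | h
          · exact absurd h.symm hab
          · exact h
        · rcases hp _ hd with h | h
          · exact absurd h hab
          · exact h.symm
        · exact absurd rfl hab
      · intro x hx hxK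
        by_contra hxn
        simp only [Set.mem_insert_iff, Set.mem_singleton_iff, not_or] at hxn
        have ha : G.Adj x d := hxK d (by simp) (Ne.symm hxn.1)
        have hb : G.Adj x (p d) := hxK (p d) (by simp) (Ne.symm hxn.2)
        rcases hx with hx | ⟨c, hc, rfl⟩
        · exact hxn.1 (hp' d hd x hx (Or.inr hb))
        · have h5 := hp' c hc d hd (Or.inr ha.symm)
          exact hxn.2 (by rw [h5])
    obtain ⟨x, hxI, hx⟩ := h1
    rcases hx with rfl | hx
    · exact Or.inl hxI
    · rw [Set.mem_singleton_iff] at hx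
      exact Or.inr (hx ▸ hxI)
  let q : V → V := fun d => if d ∈ I then d else p d
  have hqI : ∀ d ∈ D, q d ∈ I := by
    intro d hd
    simp only [q]
    split_ifs with h
    · exact h
    · exact (hmeet d hd).resolve_left h
  have hqinj : Set.InjOn q (D : Set V) := by
    intro a ha b hb h
    have hqa : ∀ a ∈ D, ∀ b ∈ D, q a = q b → a = b := by
      intro a ha b hb h
      simp only [q] at h
      split_ifs at h with h1 h2 h2
      · exact h
      · exact hp' b hb a ha (h ▸ nb_self a)
      · exact (hp' a ha b hb (h ▸ nb_self _)).symm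
      · exact hp' b hb a ha (h ▸ hp a ha)
    exact hqa a ha b hb h
  have h1 : G.IsIndepSet ((D.image q : Finset V) : Set V) := by
    intro a ha b hb hab
    rw [Finset.mem_coe, Finset.mem_image] at ha hb
    obtain ⟨c, hc, rfl⟩ := ha
    obtain ⟨d, hd, rfl⟩ := hb
    exact hI (hqI c hc) (hqI d hd) hab
  have h2 := h1.card_le_indepNum
  rwa [Finset.card_image_of_injOn hqinj, hDc] at h2

end

section
variable {W : Type} [Fintype W] [DecidableEq W] (H : SimpleGraph W)

omit [Fintype W] [DecidableEq W] in
theorem nb_twin (a b : W × Bool) : Nb (twin H) a b ↔ Nb H a.1 b.1 := by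
  obtain ⟨a, s⟩ := a
  obtain ⟨b, t⟩ := b
  constructor
  · rintro (h | h | ⟨h, -⟩)
    · left; exact (Prod.ext_iff.1 h).1
    · right; exact h
    · left; exact h.symm
  · rintro (h | h)
    · simp only at h
      subst h
      by_cases hst : s = t
      · left; rw [hst]
      · right; exact Or.inr ⟨rfl, hst⟩
    · right; exact Or.inl h

theorem upperDom_twin : upperDom (twin H) = upperDom H := by
  apply le_antisymm
  · obtain ⟨D, hD, hDc⟩ := exists_upperDom (twin H)
    obtain ⟨h1, h2⟩ := (minimal_dom_iff D).1 hD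
    have hinj : Set.InjOn Prod.fst (D : Set (W × Bool)) := by
      intro a ha b hb h
      obtain ⟨p, hp, hp'⟩ := h2 b hb
      apply hp' a ha
      rw [nb_twin] at hp ⊢
      rwa [h]
    have h3 : Minimal (Dominating H) (D.image Prod.fst) := by
      rw [minimal_dom_iff]
      constructor
      · rw [dom_iff]
        intro v
        obtain ⟨u, hu, huv⟩ := (dom_iff D).1 h1 (v, false)
        exact ⟨u.1, Finset.mem_image_of_mem _ hu, (nb_twin H _ _).1 huv⟩
      · intro d1 hd1
        obtain ⟨d, hd, rfl⟩ := Finset.mem_image.1 hd1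
        obtain ⟨p, hp, hp'⟩ := h2 d hd
        refine ⟨p.1, (nb_twin H _ _).1 hp, fun d2 hd2 h => ?_⟩
        obtain ⟨d', hd', rfl⟩ := Finset.mem_image.1 hd2
        rw [hp' d' hd' ((nb_twin H _ _).2 h)]
    have h4 := card_le_upperDom h3
    rwa [Finset.card_image_of_injOn hinj, hDc] at h4
  · obtain ⟨D, hD, hDc⟩ := exists_upperDom H
    obtain ⟨h1, h2⟩ := (minimal_dom_iff D).1 hD
    have hinj : Function.Injective (fun x : W => (x, false)) := by
      intro a b h; exact (Prod.ext_iff.1 h).1
    have h3 : Minimal (Dominating (twin H)) (D.image (fun x => (x, false))) := by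
      rw [minimal_dom_iff]
      constructor
      · rw [dom_iff]
        intro v
        obtain ⟨u, hu, huv⟩ := (dom_iff D).1 h1 v.1
        exact ⟨(u, false), Finset.mem_image_of_mem (fun x : W => (x, false)) hu,
          (nb_twin H _ _).2 huv⟩
      · intro d1 hd1
        obtain ⟨d, hd, rfl⟩ := Finset.mem_image.1 hd1
        obtain ⟨p, hp, hp'⟩ := h2 d hd
        refine ⟨(p, false), (nb_twin H _ _).2 hp, fun d2 hd2 h => ?_⟩
        obtain ⟨d', hd', rfl⟩ := Finset.mem_image.1 hd2
        rw [hp' d' hd' ((nb_twin H _ _).1 h)]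
    have h4 := card_le_upperDom h3
    rwa [Finset.card_image_of_injective _ hinj, hDc] at h4

theorem twin_no_isolated (v : W × Bool) : ∃ w, (twin H).Adj v w :=
  ⟨(v.1, !v.2), Or.inr ⟨rfl, by simp⟩⟩

theorem twin_iff : upperTotalDom (twin H) = 2 * upperDom (twin H) ↔
    H.indepNum = upperDom H := by
  rw [main_iff (twin_no_isolated H), upperDom_twin]
  constructor
  · rintro ⟨u, v, huv, huu, hvv⟩
    apply le_antisymm (indepNum_le_upperDom H)
    have hinj : Function.Injective (fun i => (u i).1) := by
      intro i j h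
      by_contra hij
      have hne : u i ≠ u j := fun h' => hij ((indep_of_matching huv).1 h')
      apply huu i j
      right
      refine ⟨h, fun h2 => hne (Prod.ext h h2)⟩
    have h1 : H.IsIndepSet ((Finset.univ.image (fun i => (u i).1) : Finset W) : Set W) := by
      intro a ha b hb _ hab
      rw [Finset.mem_coe, Finset.mem_image] at ha hb
      obtain ⟨i, -, rfl⟩ := ha
      obtain ⟨j, -, rfl⟩ := hb
      exact huu i j (Or.inl hab)
    have h2 := h1.card_le_indepNum
    rwa [Finset.card_image_of_injective _ hinj, Finset.card_univ, Fintype.card_fin] at h2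
  · intro h
    obtain ⟨s, hs⟩ := H.exists_isNIndepSet_indepNum
    let e := (s.equivFin.trans (finCongr (hs.2.trans h))).symm
    have hind : ∀ i j, ¬ H.Adj (e i : W) (e j : W) := by
      intro i j hij
      exact hs.1 (e i).2 (e j).2 hij.ne hij
    refine ⟨fun i => ((e i : W), false), fun i => ((e i : W), true), ?_, ?_, ?_⟩
    · intro i j
      constructor
      · rintro (h1 | ⟨h1, -⟩)
        · exact absurd h1 (hind i j)
        · exact e.injective (Subtype.ext h1)
      · rintro rfl
        exact Or.inr ⟨rfl, by simp⟩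
    · rintro i j (h1 | ⟨-, h1⟩)
      · exact hind i j h1
      · exact h1 rfl
    · rintro i j (h1 | ⟨-, h1⟩)
      · exact hind i j h1
      · exact h1 rfl

end

/-- Characterisation of the finite graphs without isolated vertices with `Γ_t = 2 Γ`. -/
theorem result :
    (∀ (V : Type) [Fintype V] (G : SimpleGraph V), (∀ v, ∃ w, G.Adj v w) →
      (upperTotalDom G = 2 * upperDom G ↔ HasInducedMatching G (upperDom G)) ∧
      (upperTotalDom G = 2 * upperDom G ↔
        HasInducedMatching G G.indepNum ∧ G.indepNum = upperDom G) ∧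
      (upperTotalDom G = 2 * upperDom G ↔
        ∃ k, HasInducedMatching G k ∧ ¬ PrivateConfiguration G (k + 1)) ∧
      (∀ S : Finset V, Minimal (TotalDominating G) S → S.card = 2 * upperDom G →
        (∀ x ∈ S, ∃! y, y ∈ S ∧ G.Adj x y) ∧
        (∀ w, w ∉ S → ∃ x ∈ S, ∃ y ∈ S, G.Adj x y ∧ G.Adj w x ∧ G.Adj w y)) ∧
      (StronglyPerfect G →
        (upperTotalDom G = 2 * upperDom G ↔ HasInducedMatching G G.indepNum)) ∧
      (G.CliqueFree 3 → (upperTotalDom G = 2 * upperDom G ↔ ∀ v, ∃! w, G.Adj v w))) ∧
    (∀ (W : Type) [Fintype W] (H : SimpleGraph W),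
      (∀ v, ∃ w, (twin H).Adj v w) ∧
      (upperTotalDom (twin H) = 2 * upperDom (twin H) ↔ H.indepNum = upperDom H)) := by
  classical
  constructor
  · intro V _ G hG
    refine ⟨main_iff hG, main_iff'' hG, main_iff' hG, ?_, ?_, triangle_free hG⟩
    · intro S hS hSc
      exact ⟨(structure_of_eq hS hSc).1, (structure_of_eq hS hSc).2.1⟩
    · intro hsp
      rw [main_iff'' hG]
      exact ⟨fun h => h.1, fun h => ⟨h, strongly_perfect_alpha hsp⟩⟩
  · intro W _ H
    exact ⟨twin_no_isolated H, twin_iff H⟩

end Pool.Agent.Results.MP_5135a5_co.Characterisation
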